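import Mathlib

set_option autoImplicit false

namespace NearMagic

/-- `IsNearMagic a S`: the array of the squares of the nine positive integers `a i j` has pairwise
distinct entries, its three rows, its three columns and its anti-diagonal (positions `(0,2)`,
`(1,1)`, `(2,0)`) all have sum `S`, and its main diagonal has a sum different from `S`. -/
def IsNearMagic (a : Fin 3 → Fin 3 → ℕ) (S : ℕ) : Prop :=
  (∀ i j, 0 < a i j) ∧ (∀ i j k l, a i j = a k l → i = k ∧ j = l) ∧
  (∀ i, ∑ j, a i j ^ 2 = S) ∧ (∀ j, ∑ i, a i j ^ 2 = S) ∧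
  ∑ i, a i (Fin.rev i) ^ 2 = S ∧ ∑ i, a i i ^ 2 ≠ S

end NearMagic
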