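import Pool.Agent.Lib.MP_b304a3_nt.Defs

section

set_option autoImplicit false

namespace NearMagic

/-- Duplication of a progression of three squares `v², u², w²` with difference `D t²`. -/
def st (D : ℤ) (p : ℤ × ℤ × ℤ × ℤ) : ℤ × ℤ × ℤ × ℤ :=
  (p.2.1 ^ 4 - 2 * D * p.2.1 ^ 2 * p.2.2.2 ^ 2 - D ^ 2 * p.2.2.2 ^ 4,
   p.2.1 ^ 4 + D ^ 2 * p.2.2.2 ^ 4,
   p.2.1 ^ 4 + 2 * D * p.2.1 ^ 2 * p.2.2.2 ^ 2 - D ^ 2 * p.2.2.2 ^ 4,
   2 * p.2.1 * p.1 * p.2.2.1 * p.2.2.2)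

/-- The invariant. -/
def Inv (D : ℤ) (n : ℕ) (p : ℤ × ℤ × ℤ × ℤ) : Prop :=
  p.1 ^ 2 = p.2.1 ^ 2 - D * p.2.2.2 ^ 2 ∧ p.2.2.1 ^ 2 = p.2.1 ^ 2 + D * p.2.2.2 ^ 2 ∧
  Odd p.1 ∧ Odd p.2.1 ∧ Odd p.2.2.1 ∧ ∃ s : ℤ, Odd s ∧ p.2.2.2 = 2 ^ n * s

lemma inv_step (D : ℤ) (hD : Even D) (n : ℕ) (p : ℤ × ℤ × ℤ × ℤ) (h : Inv D n p) :
    Inv D (n + 1) (st D p) := by
  obtain ⟨v, u, w, t⟩ := p
  obtain ⟨h1, h2, hv, hu, hw, s, hs, ht⟩ := h
  simp only at h1 h2 hv hu hw ht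
  have hu4 : Odd (u ^ 4) := hu.pow
  refine ⟨?_, ?_, ?_, ?_, ?_, u * v * w * s, ?_, ?_⟩
  · simp only [st]
    linear_combination (4 * D * u ^ 2 * t ^ 2 * w ^ 2) * h1 +
      (4 * D * u ^ 2 * t ^ 2 * (u ^ 2 - D * t ^ 2)) * h2
  · simp only [st]
    linear_combination (-4 * D * u ^ 2 * t ^ 2 * w ^ 2) * h1 +
      (-4 * D * u ^ 2 * t ^ 2 * (u ^ 2 - D * t ^ 2)) * h2
  · simp only [st]
    obtain ⟨d, rfl⟩ := hD
    obtain ⟨k, hk⟩ := hu4
    exact ⟨k - (d + d) * u ^ 2 * t ^ 2 - 2 * d ^ 2 * t ^ 4, by rw [hk]; ring⟩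
  · simp only [st]
    obtain ⟨d, rfl⟩ := hD
    obtain ⟨k, hk⟩ := hu4
    exact ⟨k + 2 * d ^ 2 * t ^ 4, by rw [hk]; ring⟩
  · simp only [st]
    obtain ⟨d, rfl⟩ := hD
    obtain ⟨k, hk⟩ := hu4
    exact ⟨k + (d + d) * u ^ 2 * t ^ 2 - 2 * d ^ 2 * t ^ 4, by rw [hk]; ring⟩
  · exact ((hu.mul hv).mul hw).mul hs
  · simp only [st, ht]; ring

/-- Dividing a near-magic array by the gcd of its nine bases. -/
lemma prim (a : Fin 3 → Fin 3 → ℕ) (S : ℕ) (h : IsNearMagic a S) (hS : ¬ IsSquare S) :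
    ∃ (g : ℕ) (b : Fin 3 → Fin 3 → ℕ), 0 < g ∧ (∀ i j, a i j = g * b i j) ∧
      (∃ T, IsNearMagic b T ∧ ¬ IsSquare T) ∧ (∀ d, (∀ i j, d ∣ b i j) → d = 1) := by
  obtain ⟨hpos, hinj, hr, hc, hd, hm⟩ := h
  set g := Finset.univ.gcd (fun p : Fin 3 × Fin 3 => a p.1 p.2) with hg
  have hdvd : ∀ i j, g ∣ a i j := fun i j =>
    Finset.gcd_dvd (f := fun p : Fin 3 × Fin 3 => a p.1 p.2) (Finset.mem_univ (i, j))
  have hgpos : 0 < g := Nat.pos_of_dvd_of_pos (hdvd 0 0) (hpos 0 0)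
  choose b hb using hdvd
  have hb' : a = fun i j => g * b i j := by funext i j; exact hb i j
  have hsum : ∀ f : Fin 3 → Fin 3 × Fin 3, ∑ i, a (f i).1 (f i).2 ^ 2 =
      g ^ 2 * ∑ i, b (f i).1 (f i).2 ^ 2 := by
    intro f
    rw [Finset.mul_sum]
    refine Finset.sum_congr rfl fun i _ => ?_
    rw [hb]; ring
  have hg2 : 0 < g ^ 2 := by positivity
  have hT : S = g ^ 2 * ∑ i, b i (Fin.rev i) ^ 2 := by
    rw [← hd]; exact hsum fun i => (i, Fin.rev i)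
  refine ⟨g, b, hgpos, hb, ⟨∑ i, b i (Fin.rev i) ^ 2, ⟨?_, ?_, ?_, ?_, rfl, ?_⟩, ?_⟩, ?_⟩
  · intro i j
    have := hpos i j
    rw [hb] at this
    exact Nat.pos_of_mul_pos_left this |> fun h => by
      rcases Nat.eq_zero_or_pos (b i j) with h0 | h0
      · rw [h0] at this; simp at this
      · exact h0
  · intro i j k l h
    exact hinj i j k l (by rw [hb, hb, h])
  · intro i
    have h1 := hr i
    have h2 := hsum fun j => (i, j)
    simp only at h2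
    rw [h2, hT] at h1
    exact Nat.eq_of_mul_eq_mul_left hg2 h1
  · intro j
    have h1 := hc j
    have h2 := hsum fun i => (i, j)
    simp only at h2
    rw [h2, hT] at h1
    exact Nat.eq_of_mul_eq_mul_left hg2 h1
  · intro h
    apply hm
    have h2 := hsum fun i => (i, i)
    simp only at h2
    rw [h2, h, ← hT]
  · rintro ⟨r, hr'⟩
    exact hS ⟨g * r, by rw [hT, hr']; ring⟩
  · intro d hd'
    have : g * d ∣ g := by
      conv_rhs => rw [hg]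
      refine Finset.dvd_gcd ?_
      intro p _
      show g * d ∣ a p.1 p.2
      rw [hb]
      exact mul_dvd_mul_left g (hd' _ _)
    have h2 : g * d ∣ g * 1 := by simpa using this
    exact Nat.dvd_one.mp (Nat.dvd_of_mul_dvd_mul_left hgpos h2)

/-- The array built from three progressions of squares with common difference `D t²`. -/
def arr (x y z v₁ u₁ w₁ v₂ u₂ w₂ r t : ℤ) : Fin 3 → Fin 3 → ℕ :=
  ![![(x * t).natAbs, (w₁ * r).natAbs, u₂.natAbs],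
    ![w₂.natAbs, (y * t).natAbs, (v₁ * r).natAbs],
    ![(u₁ * r).natAbs, v₂.natAbs, (z * t).natAbs]]

lemma lt_of_sq {a b : ℤ} {c : ℤ} (hc : 0 < c) (h : b ^ 2 = a ^ 2 + c) : a.natAbs < b.natAbs := by
  rw [Int.natAbs_lt_iff_sq_lt]; omega

lemma arr_near (D x y z v₁ u₁ w₁ t₁ v₂ u₂ w₂ t₂ : ℤ) (n : ℕ) (hD : 0 < D)
    (hx : x ^ 2 = y ^ 2 - D) (hz : z ^ 2 = y ^ 2 + D) (hx0 : x ≠ 0)
    (h1 : Inv D (n + 1) (v₁, u₁, w₁, t₁)) (h2 : Inv D (n + 2) (v₂, u₂, w₂, t₂))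
    (ht : t₂ = 2 * u₁ * v₁ * w₁ * t₁) :
    ∃ S, IsNearMagic (arr x y z v₁ u₁ w₁ v₂ u₂ w₂ (2 * u₁ * v₁ * w₁) t₂) S ∧ ¬ IsSquare S := by
  obtain ⟨hv1, hw1, ov1, ou1, ow1, s1, os1, ht1⟩ := h1
  obtain ⟨hv2, hw2, ov2, ou2, ow2, s2, os2, ht2⟩ := h2
  simp only at hv1 hw1 ov1 ou1 ow1 ht1 hv2 hw2 ov2 ou2 ow2 ht2
  set r : ℤ := 2 * u₁ * v₁ * w₁ with hr
  have htr : t₂ = r * t₁ := by rw [ht, hr]
  -- nonzero
  have ht1' : t₁ ≠ 0 := by
    rw [ht1]; have : s1 ≠ 0 := by rintro rfl; simp at os1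
    positivity
  have ht2' : t₂ ≠ 0 := by
    rw [ht2]; have : s2 ≠ 0 := by rintro rfl; simp at os2
    positivity
  have hr0 : r ≠ 0 := by rintro h; rw [htr, h] at ht2'; simp at ht2'
  have hc : 0 < D * t₂ ^ 2 := by positivity
  -- strict inequalities in the three groups
  have l1 : (x * t₂).natAbs < (y * t₂).natAbs := lt_of_sq hc (by linear_combination (-t₂ ^ 2) * hx)
  have l2 : (y * t₂).natAbs < (z * t₂).natAbs := lt_of_sq hc (by linear_combination (t₂ ^ 2) * hz)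
  have l3 : v₂.natAbs < u₂.natAbs := lt_of_sq hc (by linear_combination (-1 : ℤ) * hv2)
  have l4 : u₂.natAbs < w₂.natAbs := lt_of_sq hc (by linear_combination hw2)
  have l5 : (v₁ * r).natAbs < (u₁ * r).natAbs := lt_of_sq hc (by
    rw [htr]; linear_combination (-r ^ 2) * hv1)
  have l6 : (u₁ * r).natAbs < (w₁ * r).natAbs := lt_of_sq hc (by
    rw [htr]; linear_combination (r ^ 2) * hw1)
  have p1 : 0 < (x * t₂).natAbs := Int.natAbs_pos.mpr (mul_ne_zero hx0 ht2')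
  -- residues modulo 4
  have o3 : v₂.natAbs % 2 = 1 := Nat.odd_iff.mp (Int.natAbs_odd.mpr ov2)
  have o4 : u₂.natAbs % 2 = 1 := Nat.odd_iff.mp (Int.natAbs_odd.mpr ou2)
  have o5 : w₂.natAbs % 2 = 1 := Nat.odd_iff.mp (Int.natAbs_odd.mpr ow2)
  have two : ∀ c : ℤ, Odd c → (c * r).natAbs % 4 = 2 := by
    intro c oc
    obtain ⟨k, hk⟩ := ((oc.mul ou1).mul ov1).mul ow1
    have : c * r = 2 * (2 * k + 1) := by rw [hr, ← hk]; ring
    rw [this]; omega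
  have o6 := two v₁ ov1
  have o7 := two u₁ ou1
  have o8 := two w₁ ow1
  have four : ∀ c : ℤ, (c * t₂).natAbs % 4 = 0 := by
    intro c
    have : c * t₂ = 4 * (c * 2 ^ n * s2) := by rw [ht2]; ring
    rw [this]; omega
  have o0 := four x
  have o1 := four y
  have o2 := four z
  -- sums
  have q1 : (((x * t₂).natAbs : ℤ)) ^ 2 = y ^ 2 * t₂ ^ 2 - D * t₂ ^ 2 := by
    rw [Int.natCast_natAbs, sq_abs]; linear_combination (t₂ ^ 2) * hx
  have q2 : (((y * t₂).natAbs : ℤ)) ^ 2 = y ^ 2 * t₂ ^ 2 := by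
    rw [Int.natCast_natAbs, sq_abs]; ring
  have q3 : (((z * t₂).natAbs : ℤ)) ^ 2 = y ^ 2 * t₂ ^ 2 + D * t₂ ^ 2 := by
    rw [Int.natCast_natAbs, sq_abs]; linear_combination (t₂ ^ 2) * hz
  have q4 : ((v₂.natAbs : ℤ)) ^ 2 = u₂ ^ 2 - D * t₂ ^ 2 := by
    rw [Int.natCast_natAbs, sq_abs]; exact hv2
  have q5 : ((u₂.natAbs : ℤ)) ^ 2 = u₂ ^ 2 := by
    rw [Int.natCast_natAbs, sq_abs]
  have q6 : ((w₂.natAbs : ℤ)) ^ 2 = u₂ ^ 2 + D * t₂ ^ 2 := by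
    rw [Int.natCast_natAbs, sq_abs]; exact hw2
  have q7 : (((v₁ * r).natAbs : ℤ)) ^ 2 = u₁ ^ 2 * r ^ 2 - D * t₂ ^ 2 := by
    rw [Int.natCast_natAbs, sq_abs, htr]; linear_combination (r ^ 2) * hv1
  have q8 : (((u₁ * r).natAbs : ℤ)) ^ 2 = u₁ ^ 2 * r ^ 2 := by
    rw [Int.natCast_natAbs, sq_abs]; ring
  have q9 : (((w₁ * r).natAbs : ℤ)) ^ 2 = u₁ ^ 2 * r ^ 2 + D * t₂ ^ 2 := by
    rw [Int.natCast_natAbs, sq_abs, htr]; linear_combination (r ^ 2) * hw1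
  unfold arr
  generalize (x * t₂).natAbs = A0 at *
  generalize (y * t₂).natAbs = A1 at *
  generalize (z * t₂).natAbs = A2 at *
  generalize (v₁ * r).natAbs = B0 at *
  generalize (u₁ * r).natAbs = B1 at *
  generalize (w₁ * r).natAbs = B2 at *
  generalize v₂.natAbs = C0 at *
  generalize u₂.natAbs = C1 at *
  generalize w₂.natAbs = C2 at *
  have mA : ∀ m : ℕ, m % 4 = 0 → m ^ 2 % 8 = 0 := by
    intro m hm
    obtain ⟨k, rfl⟩ : 4 ∣ m := Nat.dvd_of_mod_eq_zero hm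
    have : (4 * k) ^ 2 = 8 * (2 * k ^ 2) := by ring
    omega
  have mB : ∀ m : ℕ, m % 4 = 2 → m ^ 2 % 8 = 4 := by
    intro m hm
    obtain ⟨k, rfl⟩ : ∃ k, m = 4 * k + 2 := ⟨m / 4, by omega⟩
    have : (4 * k + 2) ^ 2 = 8 * (2 * k ^ 2 + 2 * k) + 4 := by ring
    omega
  have mC : ∀ m : ℕ, m % 2 = 1 → m ^ 2 % 8 = 1 := by
    intro m hm
    rw [Nat.pow_mod]
    have : m % 8 = 1 ∨ m % 8 = 3 ∨ m % 8 = 5 ∨ m % 8 = 7 := by omega
    rcases this with h | h | h | h <;> rw [h]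
  have hS8 : (A1 ^ 2 + B1 ^ 2 + C1 ^ 2) % 8 = 5 := by
    have h1 := mA A1 o1
    have h2 := mB B1 o7
    have h3 := mC C1 o4
    omega
  refine ⟨A1 ^ 2 + B1 ^ 2 + C1 ^ 2, ⟨?_, ?_, ?_, ?_, ?_, ?_⟩, ?_⟩
  · intro i j
    fin_cases i <;> fin_cases j <;> simp <;> omega
  · intro i j k l
    fin_cases i <;> fin_cases j <;> fin_cases k <;> fin_cases l <;> simp <;> omega
  · intro i
    fin_cases i <;> simp [Fin.sum_univ_three] <;> zify <;> linarith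
  · intro i
    fin_cases i <;> simp [Fin.sum_univ_three] <;> zify <;> linarith
  · simp [Fin.sum_univ_three]; ring
  · have h1 := mA A0 o0
    have h2 := mA A1 o1
    have h3 := mA A2 o2
    simp [Fin.sum_univ_three]
    omega
  · rintro ⟨m, hm⟩
    have : m % 2 = 1 ∨ m % 4 = 0 ∨ m % 4 = 2 := by omega
    rw [hm, ← sq] at hS8
    rcases this with h | h | h
    · have := mC m h; omega
    · have := mA m h; omega
    · have := mB m h; omega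

end NearMagic
end

section

set_option autoImplicit false

namespace NearMagic

lemma inv_seq (D : ℤ) (hD : Even D) (p : ℤ × ℤ × ℤ × ℤ) (h : Inv D 0 p) (n : ℕ) :
    Inv D n ((st D)^[n] p) := by
  induction n with
  | zero => simpa using h
  | succ n ih =>
    rw [Function.iterate_succ_apply']
    exact inv_step D hD n _ ih

/-- The case of three odd numbers. -/
lemma odd_case (x y z : ℕ) (hx : Odd x) (hy : Odd y) (hz : Odd z) (hxy : x < y)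
    (h : x ^ 2 + z ^ 2 = 2 * y ^ 2) (n : ℕ) :
    ∃ b : Fin 3 → Fin 3 → ℕ, ((∃ S, IsNearMagic b S ∧ ¬ IsSquare S) ∧
      (∀ d, (∀ i j, d ∣ b i j) → d = 1) ∧ b 0 0 * y = x * b 1 1 ∧ b 2 2 * y = z * b 1 1) ∧
      2 ^ (n + 2) ∣ b 1 1 ∧ ¬ 2 ^ (n + 3) ∣ b 1 1 := by
  set D : ℤ := (y : ℤ) ^ 2 - (x : ℤ) ^ 2 with hD
  have hx' : Odd (x : ℤ) := by exact_mod_cast hx
  have hy' : Odd (y : ℤ) := by exact_mod_cast hy
  have hz' : Odd (z : ℤ) := by exact_mod_cast hz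
  have h' : (x : ℤ) ^ 2 + (z : ℤ) ^ 2 = 2 * (y : ℤ) ^ 2 := by exact_mod_cast h
  have hDe : Even D := (hy'.pow).sub_odd (hx'.pow)
  have hDp : 0 < D := by
    have h1 : x ^ 2 < y ^ 2 := Nat.pow_lt_pow_left hxy (by norm_num)
    have h2 : (x : ℤ) ^ 2 < (y : ℤ) ^ 2 := by exact_mod_cast h1
    rw [hD]; omega
  have h0 : Inv D 0 ((x : ℤ), (y : ℤ), (z : ℤ), 1) := by
    refine ⟨?_, ?_, hx', hy', hz', 1, by decide, by simp⟩
    · simp only [hD]; ring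
    · simp only [hD]; linear_combination h'
  have hseq := inv_seq D hDe _ h0
  have h1 := hseq (n + 1)
  have h2 := hseq (n + 2)
  have h12 : (st D)^[n + 2] ((x : ℤ), (y : ℤ), (z : ℤ), 1) =
      st D ((st D)^[n + 1] ((x : ℤ), (y : ℤ), (z : ℤ), 1)) := by
    rw [Function.iterate_succ_apply']
  rcases hp1 : (st D)^[n + 1] ((x : ℤ), (y : ℤ), (z : ℤ), 1) with ⟨v₁, u₁, w₁, t₁⟩
  rcases hp2 : (st D)^[n + 2] ((x : ℤ), (y : ℤ), (z : ℤ), 1) with ⟨v₂, u₂, w₂, t₂⟩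
  rw [hp1] at h1 h12
  rw [hp2] at h2 h12
  have ht : t₂ = 2 * u₁ * v₁ * w₁ * t₁ := by
    have := congrArg (fun p => p.2.2.2) h12
    simpa [st] using this
  have hxs : (x : ℤ) ^ 2 = (y : ℤ) ^ 2 - D := by rw [hD]; ring
  have hzs : (z : ℤ) ^ 2 = (y : ℤ) ^ 2 + D := by rw [hD]; linear_combination h'
  have hx0 : (x : ℤ) ≠ 0 := by rintro h; rw [h] at hx'; simp at hx'
  obtain ⟨S, hN, hS⟩ := arr_near D x y z v₁ u₁ w₁ t₁ v₂ u₂ w₂ t₂ n hDp hxs hzs hx0 h1 h2 ht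
  obtain ⟨g, b, hg, hb, hT, hp⟩ := prim _ S hN hS
  have b00 : (x * t₂).natAbs = g * b 0 0 := hb 0 0
  have b11 : (y * t₂).natAbs = g * b 1 1 := hb 1 1
  have b22 : (z * t₂).natAbs = g * b 2 2 := hb 2 2
  have b02 : u₂.natAbs = g * b 0 2 := hb 0 2
  rw [Int.natAbs_mul, Int.natAbs_natCast] at b00 b11 b22
  obtain ⟨-, -, -, ou2, -, s, os, ht2⟩ := h2
  simp only at ou2 ht2
  have og : Odd g := by
    have : Odd (g * b 0 2) := by rw [← b02]; exact Int.natAbs_odd.mpr ou2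
    exact (Nat.odd_mul.mp this).1
  have hcop : ∀ k, Nat.Coprime (2 ^ k) g := fun k =>
    Nat.Coprime.pow_left k ((Nat.coprime_two_left).mpr og)
  have ht2n : t₂.natAbs = 2 ^ (n + 2) * s.natAbs := by
    rw [ht2, Int.natAbs_mul, Int.natAbs_pow]; rfl
  refine ⟨b, ⟨hT, hp, ?_, ?_⟩, ?_, ?_⟩
  · apply Nat.eq_of_mul_eq_mul_left hg
    calc g * (b 0 0 * y) = (g * b 0 0) * y := by ring
      _ = x * (g * b 1 1) := by rw [← b00, ← b11]; ring
      _ = g * (x * b 1 1) := by ring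
  · apply Nat.eq_of_mul_eq_mul_left hg
    calc g * (b 2 2 * y) = (g * b 2 2) * y := by ring
      _ = z * (g * b 1 1) := by rw [← b22, ← b11]; ring
      _ = g * (z * b 1 1) := by ring
  · apply (hcop (n + 2)).dvd_of_dvd_mul_left
    rw [← b11, ht2n]
    exact Dvd.intro_left (y * s.natAbs) (by ring)
  · intro hd
    have h3 : 2 ^ (n + 3) ∣ g * b 1 1 := Dvd.dvd.mul_left hd g
    rw [← b11, ht2n] at h3
    have h4 : 2 ^ (n + 2) * 2 ∣ 2 ^ (n + 2) * (y * s.natAbs) := by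
      have e1 : 2 ^ (n + 3) = 2 ^ (n + 2) * 2 := by ring
      have e2 : y * (2 ^ (n + 2) * s.natAbs) = 2 ^ (n + 2) * (y * s.natAbs) := by ring
      rwa [e1, e2] at h3
    have h5 : 2 ∣ y * s.natAbs := Nat.dvd_of_mul_dvd_mul_left (by positivity) h4
    have h6 : Odd (y * s.natAbs) := hy.mul (Int.natAbs_odd.mpr os)
    rw [Nat.odd_iff] at h6
    omega

/-- Every progression of three squares is, up to scaling, the failing diagonal of infinitely many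
primitive near-magic squares of squares whose line sum is not a square. -/
theorem main (x y z : ℕ) (hx : 0 < x) (hxy : x < y) (h : x ^ 2 + z ^ 2 = 2 * y ^ 2) :
    {a : Fin 3 → Fin 3 → ℕ | (∃ S, IsNearMagic a S ∧ ¬ IsSquare S) ∧
      (∀ d, (∀ i j, d ∣ a i j) → d = 1) ∧
      a 0 0 * y = x * a 1 1 ∧ a 2 2 * y = z * a 1 1}.Infinite := by
  -- reduction to coprime numbers
  obtain ⟨d, hd⟩ : ∃ d, d = Nat.gcd x y := ⟨_, rfl⟩
  have hd0 : 0 < d := by rw [hd]; exact Nat.gcd_pos_of_pos_left _ hx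
  obtain ⟨x', hx'⟩ : d ∣ x := hd ▸ Nat.gcd_dvd_left x y
  obtain ⟨y', hy'⟩ : d ∣ y := hd ▸ Nat.gcd_dvd_right x y
  have hcop : Nat.Coprime x' y' := by
    have h1 : d * 1 = d * Nat.gcd x' y' := by
      rw [← Nat.gcd_mul_left, ← hx', ← hy', mul_one]; exact hd
    exact (Nat.eq_of_mul_eq_mul_left hd0 h1).symm
  obtain ⟨z', hz'⟩ : d ∣ z := by
    have h1 : d ^ 2 ∣ z ^ 2 := by
      have h2 : d ^ 2 ∣ x ^ 2 + z ^ 2 := by
        rw [h, hy', mul_pow]; exact Dvd.intro_left (2 * y' ^ 2) (by ring)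
      have h3 : d ^ 2 ∣ x ^ 2 := by rw [hx', mul_pow]; exact Dvd.intro _ rfl
      exact (Nat.dvd_add_right h3).mp h2
    exact (Nat.pow_dvd_pow_iff (by norm_num)).mp h1
  have h1 : x' ^ 2 + z' ^ 2 = 2 * y' ^ 2 := by
    have h2 : d ^ 2 * (x' ^ 2 + z' ^ 2) = d ^ 2 * (2 * y' ^ 2) := by
      have h3 := h
      rw [hx', hy', hz'] at h3
      linarith
    exact Nat.eq_of_mul_eq_mul_left (by positivity) h2
  have sqm : ∀ m : ℕ, m ^ 2 % 4 = 0 ∧ m % 2 = 0 ∨ m ^ 2 % 8 = 1 ∧ m % 2 = 1 := by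
    intro m
    have hm : m % 8 < 8 := Nat.mod_lt _ (by norm_num)
    have e : m ^ 2 % 8 = (m % 8) ^ 2 % 8 := Nat.pow_mod m 2 8
    have e2 : m ^ 2 % 4 = m ^ 2 % 8 % 4 := by omega
    rw [e2, e]
    generalize hmm : m % 8 = k at *
    interval_cases k <;> simp <;> omega
  have par : x' % 2 = 1 ∧ y' % 2 = 1 ∧ z' % 2 = 1 := by
    rcases sqm x' with ⟨ex, px⟩ | ⟨ex, px⟩ <;> rcases sqm y' with ⟨ey, py⟩ | ⟨ey, py⟩ <;>
      rcases sqm z' with ⟨ez, pz⟩ | ⟨ez, pz⟩ <;> first | omega | skip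
    all_goals
      have h2 : 2 ∣ Nat.gcd x' y' := Nat.dvd_gcd (Nat.dvd_of_mod_eq_zero px)
        (Nat.dvd_of_mod_eq_zero py)
      rw [hcop] at h2
      omega
  have hlt : x' < y' := by
    rw [hx', hy'] at hxy
    exact Nat.lt_of_mul_lt_mul_left hxy
  have key := odd_case x' y' z' (Nat.odd_iff.mpr par.1) (Nat.odd_iff.mpr par.2.1)
    (Nat.odd_iff.mpr par.2.2) hlt h1
  choose b hb using key
  refine Set.infinite_of_injective_forall_mem (f := b) ?_ ?_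
  · intro m n hmn
    by_contra hne
    rcases Nat.lt_or_gt_of_ne hne with hlt' | hlt'
    · have h2 := (hb n).2.1
      rw [← hmn] at h2
      exact (hb m).2.2 ((pow_dvd_pow 2 (by omega)).trans h2)
    · have h2 := (hb m).2.1
      rw [hmn] at h2
      exact (hb n).2.2 ((pow_dvd_pow 2 (by omega)).trans h2)
  · intro n
    obtain ⟨⟨hS, hp, e1, e2⟩, -, -⟩ := hb n
    refine ⟨hS, hp, ?_, ?_⟩
    · rw [hx', hy']
      calc b n 0 0 * (d * y') = d * (b n 0 0 * y') := by ring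
        _ = d * (x' * b n 1 1) := by rw [e1]
        _ = d * x' * b n 1 1 := by ring
    · rw [hz', hy']
      calc b n 2 2 * (d * y') = d * (b n 2 2 * y') := by ring
        _ = d * (z' * b n 1 1) := by rw [e2]
        _ = d * z' * b n 1 1 := by ring

end NearMagic
end
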